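import Mathlib
import Pool.Agent.Helper4K9.BW.Thr

/-!
MP_160ed4_ag, Q1: the special sets swept out by the curves given by iterated linear differential
equations with small meromorphic coefficients.
-/

set_option autoImplicit false

namespace Pool.Agent.Results.MP_160ed4_ag.AdmissibleSpecialSets

open MvPolynomial Metric Set Filter Topology FF
open Pool.Agent.W602.GT Pool.Agent.TH143 Pool.Agent.TH143.GT Pool.Agent.W603.BP
  Pool.Agent.W603.BPR Pool.Agent.W603.GR Pool.Agent.W603.PV Pool.Agent.Helper4K9.IP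
  Pool.Agent.Helper4K9.AP Pool.Agent.Helper4K9.MP Pool.Agent.Helper4K9.BW

variable {n : ℕ}

/-- The polynomials `P` give a nonconstant morphism from the multiplicative group to the
quasi-projective variety `X` with the ideal `p` and the boundary `Q = 0`. -/
structure GmMap (p : Ideal (MvPolynomial (Fin (n + 1)) ℂ)) (Q : MvPolynomial (Fin (n + 1)) ℂ)
    (P : Fin (n + 1) → Polynomial ℂ) : Prop where
  mem : ∀ t : ℂ, t ≠ 0 → (fun j => (P j).eval t) ∈ PtsP p Q
  nonconst : ∃ s t : ℂ, s ≠ 0 ∧ t ≠ 0 ∧ ∃ j k,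
    (P j).eval s * (P k).eval t ≠ (P k).eval s * (P j).eval t

/-- The morphism given by `P` passes through the point with the homogeneous coordinates `x`. -/
def Passes (P : Fin (n + 1) → Polynomial ℂ) (x : Fin (n + 1) → ℂ) : Prop :=
  ∃ t c : ℂ, t ≠ 0 ∧ c ≠ 0 ∧ ∀ j, (P j).eval t = c * x j

/-- the Zariski closure in `X` of the image of `S` under `f` -/
def Cl (p : Ideal (MvPolynomial (Fin (n + 1)) ℂ)) (Q : MvPolynomial (Fin (n + 1)) ℂ)
    (f : ℂ → Fin (n + 1) → ℂ) (S : Set ℂ) : Set (Fin (n + 1) → ℂ) :=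
  {x | x ∈ PtsP p Q ∧ ∀ G : MvPolynomial (Fin (n + 1)) ℂ, IsForm G →
    (∀ z ∈ S, eval (f z) G = 0) → eval x G = 0}

/-- The Zariski closure in `X` of the union of the images of the holomorphic maps from the punctured
disc to `X` with an essential singularity which are given, near the origin, by iterated linear
differential equations with small meromorphic coefficients. -/
def SpP (p : Ideal (MvPolynomial (Fin (n + 1)) ℂ)) (Q : MvPolynomial (Fin (n + 1)) ℂ) (q : ℕ) :
    Set (Fin (n + 1) → ℂ) :=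
  {x | x ∈ PtsP p Q ∧ ∀ G : MvPolynomial (Fin (n + 1)) ℂ, IsForm G →
    (∀ f, PCurve p Q f → Adm Q q f → ¬ Extends f → ∀ z ∈ ball (0 : ℂ) 1 \ {0},
      eval (f z) G = 0) → eval x G = 0}

/-- The Zariski closure in `X` of the union of the images of the nonconstant holomorphic maps from
the line to `X` which are given, near infinity, by iterated linear differential equations with small
meromorphic coefficients. -/
def SpH (p : Ideal (MvPolynomial (Fin (n + 1)) ℂ)) (Q : MvPolynomial (Fin (n + 1)) ℂ) (q : ℕ) :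
    Set (Fin (n + 1) → ℂ) :=
  {x | x ∈ PtsP p Q ∧ ∀ G : MvPolynomial (Fin (n + 1)) ℂ, IsForm G →
    (∀ f, EntireCurve p Q f → Adm Q q (fun w => f w⁻¹) → ∀ z, eval (f z) G = 0) → eval x G = 0}

/-- The Zariski closure in `X` of the union of the images of the nonconstant morphisms from the
multiplicative group to `X`. -/
def SpGm (p : Ideal (MvPolynomial (Fin (n + 1)) ℂ)) (Q : MvPolynomial (Fin (n + 1)) ℂ) :
    Set (Fin (n + 1) → ℂ) :=
  {x | x ∈ PtsP p Q ∧ ∀ G : MvPolynomial (Fin (n + 1)) ℂ, IsForm G →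
    (∀ P, GmMap p Q P → ∀ t : ℂ, t ≠ 0 → eval (fun j => (P j).eval t) G = 0) → eval x G = 0}

/-- The Zariski closure in `X` of the union of the closed subvarieties of positive dimension of `X`
which are not of log general type: a form `G` vanishes on all of them if and only if the closed
subvarieties of positive dimension which are not contained in `G = 0` are of log general type. -/
def SpAlg (p : Ideal (MvPolynomial (Fin (n + 1)) ℂ)) (Q : MvPolynomial (Fin (n + 1)) ℂ) (q : ℕ) :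
    Set (Fin (n + 1) → ℂ) :=
  {x | x ∈ PtsP p Q ∧ ∀ G : MvPolynomial (Fin (n + 1)) ℂ, IsForm G → SubLogGT p Q q G →
    eval x G = 0}

variable {p : Ideal (MvPolynomial (Fin (n + 1)) ℂ)} {Q : MvPolynomial (Fin (n + 1)) ℂ} {q : ℕ}

theorem gm_exp (P : Fin (n + 1) → Polynomial ℂ) (hP : GmMap p Q P) :
    IsGmCurve (fun G : {G : MvPolynomial (Fin (n + 1)) ℂ // G ∈ p} => G.1) Q P :=
  ⟨fun t ht => Function.ne_iff.1 (hP.mem t ht).1,
    fun t ht => ⟨fun i => (hP.mem t ht).2.1 i.1 i.2, (hP.mem t ht).2.2⟩, hP.nonconst⟩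

/-- the general points of the Zariski closure -/
theorem closure_pts {f : ℂ → Fin (n + 1) → ℂ} {S : Set ℂ} (hp : IsHomog p)
    (hI : ∀ z ∈ S, ∀ H ∈ p, eval (f z) H = 0) (h : Fam Q f S) (hQ : Q.IsHomogeneous q) :
    ∃ H : MvPolynomial (Fin (n + 1)) ℂ, IsForm H ∧ (∃ z ∈ S, eval (f z) H ≠ 0) ∧
      ∀ x ∈ Cl p Q f S, eval x H ≠ 0 → ∃ P, GmMap p Q P ∧ Passes P x ∧
        ∀ t : ℂ, t ≠ 0 → (fun j => (P j).eval t) ∈ Cl p Q f S := by
  obtain ⟨H, hH, hHf, h1⟩ := Helper4K9.BW.Fam.pts h hQ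
  refine ⟨H, hH, hHf, fun x hx hxH => ?_⟩
  obtain ⟨P, hP, hPx⟩ := h1 x hx.1.1 (fun G hG hG0 => hx.2 G hG hG0) hxH
  have h2 : ∀ t : ℂ, t ≠ 0 → ∀ G : MvPolynomial (Fin (n + 1)) ℂ, IsForm G →
      (∀ z ∈ S, eval (f z) G = 0) → eval (fun j => (P j).eval t) G = 0 := fun t ht G hG hG0 =>
    (hP.mem t ht).1 ⟨G, hG, hG0⟩
  have h3 : ∀ t : ℂ, t ≠ 0 → (fun j => (P j).eval t) ∈ PtsP p Q := by
    intro t ht
    refine ⟨Function.ne_iff.2 (hP.ne t ht), fun G hG => ?_, (hP.mem t ht).2⟩
    rw [← sum_homogeneousComponent G, map_sum]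
    refine Finset.sum_eq_zero fun d _ => ?_
    exact h2 t ht _ ⟨d, homogeneousComponent_isHomogeneous d G⟩ fun z hz => hI z hz _ (hp G hG d)
  exact ⟨P, ⟨h3, hP.nonconst⟩, hPx, fun t ht => ⟨h3 t ht, h2 t ht⟩⟩

theorem zero_of_through {P : Fin (n + 1) → Polynomial ℂ} {x : Fin (n + 1) → ℂ}
    (h : Passes P x) {G : MvPolynomial (Fin (n + 1)) ℂ} (hG : IsForm G)
    (h0 : ∀ t : ℂ, t ≠ 0 → eval (fun j => (P j).eval t) G = 0) : eval x G = 0 := by
  obtain ⟨t, c, ht, hc, h⟩ := h
  obtain ⟨d, hG⟩ := hG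
  have h1 := h0 t ht
  rw [show (fun j => (P j).eval t) = fun j => c * x j from funext h,
    Pool.Agent.H159R3.Exp.eval_smul_homog hG] at h1
  exact (mul_eq_zero.mp h1).resolve_left (pow_ne_zero _ hc)

/-- Let `X` be the quasi-projective variety with the homogeneous ideal `p` and the boundary `Q = 0`,
`q = deg Q`. A holomorphic map from the punctured disc to `X` (an entire curve in `X`) is called
admissible if it is given, near the origin (near infinity), by iterated linear differential equations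
whose coefficients are meromorphic functions which are small with respect to the curve.

(1) The special sets swept out by the admissible maps from the punctured disc with an essential
singularity, and by the admissible entire curves, are both equal to the special set swept out by the
morphisms from the multiplicative group, and contained in the special set `Sp_alg`.

(2) More precisely, let `V` be the Zariski closure of the image of an admissible map from the
punctured disc with an essential singularity, or of an admissible entire curve. Then `V` is not of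
log general type, and there is a form `H` which does not vanish identically on `V`, such that
nonconstant morphisms from the multiplicative group to `V` pass through all points of `V` outside
`H = 0`.

(3) The curves which have few degenerate points with respect to some decomposition of the space are
admissible; these are the curves with few inflection points, if the decomposition is trivial, and
the curves whose homogeneous coordinates have few zeros, if it is the decomposition into lines. -/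
theorem result (p : Ideal (MvPolynomial (Fin (n + 1)) ℂ)) (hp : IsHomog p)
    (Q : MvPolynomial (Fin (n + 1)) ℂ) (q : ℕ) (hQ : Q.IsHomogeneous q) :
    (SpP p Q q = SpGm p Q ∧ SpH p Q q = SpGm p Q ∧ SpGm p Q ⊆ SpAlg p Q q) ∧
    ((∀ f, PCurve p Q f → Adm Q q f → ¬ Extends f →
        (∀ (K : Type) [Field K] [Algebra ℂ K] (w : ℕ) (y : Fin (n + 1) → K),
          GenPt f (ball 0 1 \ {0}) K w y → ¬ LogGeneralType ℂ K w (OffQ Q q y)) ∧
        ∃ H : MvPolynomial (Fin (n + 1)) ℂ, IsForm H ∧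
          (∃ z ∈ ball (0 : ℂ) 1 \ {0}, eval (f z) H ≠ 0) ∧
          ∀ x ∈ Cl p Q f (ball 0 1 \ {0}), eval x H ≠ 0 → ∃ P, GmMap p Q P ∧ Passes P x ∧
            ∀ t : ℂ, t ≠ 0 → (fun j => (P j).eval t) ∈ Cl p Q f (ball 0 1 \ {0})) ∧
      ∀ f, EntireCurve p Q f → Adm Q q (fun w => f w⁻¹) →
        (∀ (K : Type) [Field K] [Algebra ℂ K] (w : ℕ) (y : Fin (n + 1) → K),
          GenPt f univ K w y → ¬ LogGeneralType ℂ K w (OffQ Q q y)) ∧
        ∃ H : MvPolynomial (Fin (n + 1)) ℂ, IsForm H ∧ (∃ z, eval (f z) H ≠ 0) ∧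
          ∀ x ∈ Cl p Q f univ, eval x H ≠ 0 → ∃ P, GmMap p Q P ∧ Passes P x ∧
            ∀ t : ℂ, t ≠ 0 → (fun j => (P j).eval t) ∈ Cl p Q f univ) ∧
    (∀ f, PCurve p Q f → FewDegenerate f → Adm Q q f) ∧
    ∀ f, EntireCurve p Q f → FewDegenerateE f → Adm Q q (fun w => f w⁻¹) := by
  have hset : (ball (0 : ℂ) 1 \ {0}) = PB 1 := pb_eq 1
  have hfam : ∀ f, PCurve p Q f → Adm Q q f → ¬ Extends f → Fam Q f (ball 0 1 \ {0}) := by
    intro f hf hl he
    rw [hset]
    rcases merAdm_fam hQ hf.an (fun w hw => (hf.2 w (by rw [hset]; exact hw)).1)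
      (fun z hz => (hf.2 z (by rw [hset]; exact hz)).2.2) (adm_iff.1 hl) with h | h
    · exact absurd h he
    · exact h
  have hfamE : ∀ f, EntireCurve p Q f → Adm Q q (fun w => f w⁻¹) → Fam Q f univ :=
    fun f hf hl => merAdm_fam_ent hQ hf (adm_iff.1 hl)
  have hA : ∀ f, PCurve p Q f → Adm Q q f → ¬ Extends f →
      (∀ (K : Type) [Field K] [Algebra ℂ K] (w : ℕ) (y : Fin (n + 1) → K),
        GenPt f (ball 0 1 \ {0}) K w y → ¬ LogGeneralType ℂ K w (OffQ Q q y)) ∧
      ∃ H : MvPolynomial (Fin (n + 1)) ℂ, IsForm H ∧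
        (∃ z ∈ ball (0 : ℂ) 1 \ {0}, eval (f z) H ≠ 0) ∧
        ∀ x ∈ Cl p Q f (ball 0 1 \ {0}), eval x H ≠ 0 → ∃ P, GmMap p Q P ∧ Passes P x ∧
          ∀ t : ℂ, t ≠ 0 → (fun j => (P j).eval t) ∈ Cl p Q f (ball 0 1 \ {0}) :=
    fun f hf hl he => ⟨fun K _ _ w y hy => (hfam f hf hl he).not_lgt hQ hy,
      closure_pts hp (fun z hz => (hf.2 z hz).2.1) (hfam f hf hl he) hQ⟩
  have hB : ∀ f, EntireCurve p Q f → Adm Q q (fun w => f w⁻¹) →
      (∀ (K : Type) [Field K] [Algebra ℂ K] (w : ℕ) (y : Fin (n + 1) → K),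
        GenPt f univ K w y → ¬ LogGeneralType ℂ K w (OffQ Q q y)) ∧
      ∃ H : MvPolynomial (Fin (n + 1)) ℂ, IsForm H ∧ (∃ z, eval (f z) H ≠ 0) ∧
        ∀ x ∈ Cl p Q f univ, eval x H ≠ 0 → ∃ P, GmMap p Q P ∧ Passes P x ∧
          ∀ t : ℂ, t ≠ 0 → (fun j => (P j).eval t) ∈ Cl p Q f univ := by
    intro f hf hl
    refine ⟨fun K _ _ w y hy => (hfamE f hf hl).not_lgt hQ hy, ?_⟩
    obtain ⟨H, h1, ⟨z, -, h2⟩, h3⟩ :=
      closure_pts hp (fun z _ => (hf.2.1 z).2.1) (hfamE f hf hl) hQ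
    exact ⟨H, h1, ⟨z, h2⟩, h3⟩
  -- forms which vanish on the curves of the multiplicative group
  have hG1 : ∀ G : MvPolynomial (Fin (n + 1)) ℂ, IsForm G →
      (∀ P, GmMap p Q P → ∀ t : ℂ, t ≠ 0 → eval (fun j => (P j).eval t) G = 0) →
      ∀ f, PCurve p Q f → Adm Q q f → ¬ Extends f → ∀ z ∈ ball (0 : ℂ) 1 \ {0},
        eval (f z) G = 0 := by
    intro G hG hGm f hf hl he z hz
    obtain ⟨H, ⟨d, hH⟩, ⟨z0, hz0, hz0H⟩, h3⟩ := (hA f hf hl he).2
    have han : ∀ H' : MvPolynomial (Fin (n + 1)) ℂ,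
        AnalyticOnNhd ℂ (fun z => eval (f z) H') (PB 1) := fun H' => eval_an' hf.an H'
    rw [hset] at hz hz0
    refine (han G).eqOn_zero_of_preconnected_of_eventuallyEq_zero (PB_preconn one_pos) hz0 ?_ hz
    filter_upwards [((han H) z0 hz0).continuousAt.eventually_ne hz0H,
      (PB_open 1).mem_nhds hz0] with z1 h4 h5
    rw [← hset] at h5
    obtain ⟨P, hP, hPx, -⟩ := h3 (f z1) ⟨hf.2 z1 h5, fun G' _ hG' => hG' z1 h5⟩ h4
    exact zero_of_through hPx hG (hGm P hP)
  have hG2 : ∀ G : MvPolynomial (Fin (n + 1)) ℂ, IsForm G →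
      (∀ P, GmMap p Q P → ∀ t : ℂ, t ≠ 0 → eval (fun j => (P j).eval t) G = 0) →
      ∀ f, EntireCurve p Q f → Adm Q q (fun w => f w⁻¹) → ∀ z, eval (f z) G = 0 := by
    intro G hG hGm f hf hl z
    obtain ⟨H, ⟨d, hH⟩, ⟨z0, hz0H⟩, h3⟩ := (hB f hf hl).2
    have han : ∀ H' : MvPolynomial (Fin (n + 1)) ℂ,
        AnalyticOnNhd ℂ (fun z => eval (f z) H') univ := fun H' =>
      eval_an' (fun j z _ => ((ent_data hf).1 j).analyticAt z) H'
    refine (han G).eqOn_zero_of_preconnected_of_eventuallyEq_zero isPreconnected_univ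
      (mem_univ z0) ?_ (mem_univ z)
    filter_upwards [((han H) z0 (mem_univ _)).continuousAt.eventually_ne hz0H] with z1 h4
    obtain ⟨P, hP, hPx, -⟩ := h3 (f z1) ⟨hf.2.1 z1, fun G' _ hG' => hG' z1 (mem_univ _)⟩ h4
    exact zero_of_through hPx hG (hGm P hP)
  -- forms which vanish on the admissible curves
  have hG3 : ∀ G : MvPolynomial (Fin (n + 1)) ℂ,
      (∀ f, PCurve p Q f → Adm Q q f → ¬ Extends f → ∀ z ∈ ball (0 : ℂ) 1 \ {0},
        eval (f z) G = 0) → ∀ P, GmMap p Q P → ∀ t : ℂ, t ≠ 0 →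
      eval (fun j => (P j).eval t) G = 0 := by
    intro G h P hP t ht
    obtain ⟨w, hw, hwt⟩ := exists_exp_inv ht one_pos
    have hP' := gm_exp P hP
    have h1 := h (fun w => fun j => (P j).eval (Complex.exp w⁻¹)) ⟨fun w hw => by
        rw [hset] at hw
        refine (differentiableAt_pi.2 fun j => ?_).differentiableWithinAt
        have h2 : DifferentiableAt ℂ (fun w : ℂ => Complex.exp w⁻¹) w :=
          (analyticAt_inv hw.1).cexp.differentiableAt
        exact (Polynomial.differentiable (P j)).differentiableAt.comp w h2,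
      fun w _ => hP.mem _ (Complex.exp_ne_zero _)⟩ (adm_iff.2 (merAdm_exp hP')) (not_extends_exp _ Q P hP')
      w (by rw [hset]; exact hw)
    simp only [hwt] at h1
    exact h1
  have hG4 : ∀ G : MvPolynomial (Fin (n + 1)) ℂ,
      (∀ f, EntireCurve p Q f → Adm Q q (fun w => f w⁻¹) → ∀ z, eval (f z) G = 0) →
      ∀ P, GmMap p Q P → ∀ t : ℂ, t ≠ 0 → eval (fun j => (P j).eval t) G = 0 := by
    intro G h P hP t ht
    have hP' := gm_exp P hP
    have h1 := h (fun z => fun j => (P j).eval (Complex.exp z)) ⟨fun z =>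
        differentiableAt_pi.2 fun j =>
          ((Polynomial.differentiable (P j)).comp Complex.differentiable_exp).differentiableAt,
      fun z => hP.mem _ (Complex.exp_ne_zero _), by
        obtain ⟨s, t, hs, ht, j, k, hst⟩ := hP.nonconst
        refine ⟨Complex.log s, Complex.log t, fun c hc => hst ?_⟩
        have e1 := congrFun hc j
        have e2 := congrFun hc k
        simp only [Complex.exp_log hs, Complex.exp_log ht, Pi.smul_apply, smul_eq_mul] at e1 e2
        rw [e1, e2]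
        ring⟩ (adm_iff.2 (merAdm_exp hP')) (Complex.log t)
    simp only [Complex.exp_log ht] at h1
    exact h1
  refine ⟨⟨?_, ?_, ?_⟩, ⟨hA, hB⟩, fun f hf hl => ?_, fun f hf hl => ?_⟩
  · ext x
    exact ⟨fun h => ⟨h.1, fun G hG hGm => h.2 G hG (hG1 G hG hGm)⟩,
      fun h => ⟨h.1, fun G hG h1 => h.2 G hG (hG3 G h1)⟩⟩
  · ext x
    exact ⟨fun h => ⟨h.1, fun G hG hGm => h.2 G hG (hG2 G hG hGm)⟩,
      fun h => ⟨h.1, fun G hG h1 => h.2 G hG (hG4 G h1)⟩⟩
  · intro x h
    refine ⟨h.1, fun G hG hL => h.2 G hG (hG4 G fun f hf hl z => ?_)⟩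
    exact Helper4K9.MP.strong_brody hp hQ hG hL hf (adm_iff.1 hl) z
  · exact adm_iff.2 (merAdm_of_deg hQ hf.an (fun w hw => (hf.2 w (by rw [hset]; exact hw)).1)
      (fun z hz => (hf.2 z (by rw [hset]; exact hz)).2.2) hl)
  · obtain ⟨hd, hne, hfQ, hnc⟩ := ent_data hf
    obtain ⟨a1, a2, a3⟩ := inv_facts hd hne hfQ
    exact adm_iff.2 (merAdm_of_deg hQ a1 a2 a3 (deg_of_entire hd hl))

end Pool.Agent.Results.MP_160ed4_ag.AdmissibleSpecialSets
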