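import Pool.Agent.Helper21K9.FV.MainQ

/-!
MP_160ed4_ag: the five conditions of the question for quasi-projective varieties given by equations
and boundary components of Fermat type through given closed sets: the special sets are those of the
given closed sets.

Let `k` be a subfield of the complex numbers, with algebraic closure `k'` in them (for example the
algebraic closure of the field generated by the finitely many coefficients of the equations of `V`
and of the `X_i` below, which is countable). Let `V` be a closed subset of projective space, defined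
over `k'`, of dimension at most `m`. For `i` in a finite set `I` let `X_i` be a closed subset of
projective space, given by forms `G_ij` over `k'` of degrees `e_ij`; the `X_i` are arbitrary, for
example all the same, or empty (`G_ij = 1`). Let `E` be a finite set, `q : I → E` a map, and let
`F_i = ∑_j P_ij G_ij` be the very general form of degree `D_c > e_ij`, `c = q (i)`, in the ideal
generated by the `G_ij`: all the coefficients of the forms `P_ij` together are algebraically
independent over `k`. For `c ∈ E` let

                 `h_c = ∑ F_i ^ N_c`, the sum over the `i` with `q (i) = c`.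

Let `B` be a subset of `E`, and let `X` be the set of the points of `V` at which `h_c = 0` for
`c ∈ B` and `h_c ≠ 0` for `c ∉ B`. Let `|I| ≥ 2 m + |E - B|`. Then:

(1) Every closed subvariety of dimension `w > 0` of `X` that is not contained in any `X_i` is of log
    general type, if the `N_c` are large: `N_c ≥ w (s + 1) (s - 1) (s - 2) / 2`, where `s` is at
    least the number of the terms of `h_c`, and one more for `c ∉ B`. This is true for all varieties
    with a generically finite map to `X` whose image is not contained in any `X_i` (then the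
    boundary is the inverse image of the boundary of `X`).
(2) If `B = E`, so that `X` is closed, the same is true for the quotients of degree at most `r` of
    the varieties of dimension `w` with a generically finite map to `X`, if
    `N_c ≥ r w (s + 4) (s - 1) (s - 2) / 2`.
(3) Every entire curve in `X` (nonconstant holomorphic map from the complex plane) has its image in
    some `X_i`, if `N_c` is at least the square of the number of the terms of `h_c`, minus one for
    `c ∈ B`.
(4) Every holomorphic map from the punctured disc to `X` with an essential singularity (no extension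
    to a holomorphic map from the disc to projective space) has its image in some `X_i`, for the
    same `N_c`.
(5) The special sets, for these `N_c`: a closed set contains all closed subvarieties of `X` of
    dimension `w` which are not of log general type if and only if it contains those of all
    `X ∩ X_i`; it contains all entire curves in `X` if and only if it contains those in all
    `X ∩ X_i`; and it contains all maps from the punctured disc to `X` with an essential singularity
    if and only if it contains those to all `X ∩ X_i`. In other words: `Sp_alg (X)`, `Sp_h (X)`,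
    `Sp_p (X)` are the unions of the sets `Sp_alg (X ∩ X_i)`, `Sp_h (X ∩ X_i)`, `Sp_p (X ∩ X_i)`.
(6) Outside the `X_i` the hypersurfaces `h_c = 0` with more than `n` terms are smooth and meet
    transversally. So if `V` is the projective space, then outside the `X_i` the closure of `X` is
    a smooth complete intersection, and its boundary has simple normal crossings.

For example let `E` have one element and `B = E`. Let all the `X_i` be the same closed subset `Z` of
`V`. Then `Z` is contained in `X`, and all special sets of `X` are those of `Z`: they can be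
prescribed arbitrarily. The smooth varieties which are the subject of the question can be the smooth
quasi-projective varieties with a generically finite morphism to `X` whose image is not contained in
any `X_i`, for example all resolutions of singularities and finite covers of `X`, or (for `V = P^n`)
`X` without the union of the `X_i`: by (1), (3), (4) they satisfy all the five conditions, all
their special sets are contained in the union of the inverse images of the `X_i` and of the closed
set of the points with positive-dimensional fibres (`Sp_sab` is contained in `Sp_h`).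

A closed subvariety of `X` is given by its function field `L` and its generic point `y` in
homogeneous coordinates. A variety with a generically finite map to `X` is given by its function
field `L` and the image `y` of its generic point, such that `L` is algebraic over the field
generated by the ratios of the coordinates of `y`. A prime divisor `Q` over it has its centre in the
boundary if `D_c N_c min_i ord_Q (y_i) < ord_Q (h_c (y))` for some `c ∉ B`; `pord Q y` is the
minimum of the orders `ord_Q (y_i)`. The condition `DimLE` says that the ratios of the homogeneous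
coordinates of the points of the closed set over all extension fields generate extensions of
transcendence degree at most the given bound.

For empty `X_i`, linear forms, `V = P^n`, and one equation or one boundary component, (3) is a
theorem of Shiffman and Zaidenberg (with `2 n - 1`, `2 n` forms; here the forms have arbitrary
degrees and `V` is arbitrary). The starting results WaringFiveConditions and WaringSpecialSets are
about sums of few high powers of linear forms, and their special sets are unions of lines.
-/

set_option autoImplicit false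

namespace Pool.Agent.Results.MP_160ed4_ag.PrescribedFiveSets

open MvPolynomial FF Metric Pool.Agent.W602.GT Pool.Agent.TH145.MG Pool.Agent.W603.LV
  Pool.Agent.W603.PV

section defs

variable {k : Type} [Field k] [Algebra k ℂ] {n : ℕ} {E I : Type} [Fintype I]

open scoped Classical in
/-- The form `h_c = ∑ F i ^ N c`, the sum over the `i` with `q i = c`. -/
noncomputable def pw (q : I → E) (F : I → MvPolynomial (Fin (n + 1)) ℂ) (N : E → ℕ) (c : E) :
    MvPolynomial (Fin (n + 1)) ℂ :=
  ∑ i ∈ Finset.univ.filter (fun i => q i = c), F i ^ N c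

open scoped Classical in
/-- The number of the terms of `h_c`. -/
noncomputable def num (q : I → E) (c : E) : ℕ := (Finset.univ.filter (fun i => q i = c)).card

/-- The point `x` of projective space, over a field `L`, is on `X`: it is on `V`, and `h c = 0` at
`x` for `c ∈ B`, and `h c ≠ 0` for `c ∉ B`. -/
def OnX (V : Set (MvPolynomial (Fin (n + 1)) (algebraicClosure k ℂ)))
    (h : E → MvPolynomial (Fin (n + 1)) ℂ) (B : Finset E) {L : Type} [Field L] [Algebra ℂ L]
    (x : Fin (n + 1) → L) : Prop :=
  x ≠ 0 ∧ (∀ f ∈ V, aeval x (map (algebraMap (algebraicClosure k ℂ) ℂ) f) = 0) ∧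
    (∀ c ∈ B, aeval x (h c) = 0) ∧ ∀ c, c ∉ B → aeval x (h c) ≠ 0

/-- `L` is the function field of a variety of dimension `w` with a generically finite map to `X`,
and `y` is the image of its generic point; for example `L` is the function field and `y` the generic
point of a closed subvariety of `X`. -/
def Var (V : Set (MvPolynomial (Fin (n + 1)) (algebraicClosure k ℂ)))
    (h : E → MvPolynomial (Fin (n + 1)) ℂ) (B : Finset E) {L : Type} [Field L] [Algebra ℂ L]
    (w : ℕ) (y : Fin (n + 1) → L) : Prop :=
  OnX V h B y ∧ Algebra.trdeg ℂ L = w ∧ Algebra.IsAlgebraic (coords ℂ y) L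

/-- The variety is of log general type, with the inverse image of the boundary `h c = 0`, `c ∉ B`,
as its boundary; the degree of `h c` is `Dh c`. -/
def LogGT (Dh : E → ℕ) (h : E → MvPolynomial (Fin (n + 1)) ℂ) (B : Finset E) {L : Type} [Field L]
    [Algebra ℂ L] (w : ℕ) (y : Fin (n + 1) → L) : Prop :=
  LogGeneralType ℂ L w fun Q : Place ℂ L =>
    ∃ c, c ∉ B ∧ Dh c * pord Q y < Q.ord (aeval y (h c))

/-- `f` is the vector of homogeneous coordinates of an entire curve in `X`, a nonconstant holomorphic
map from the complex plane to `X`. -/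
def EntireCurve (V : Set (MvPolynomial (Fin (n + 1)) (algebraicClosure k ℂ)))
    (h : E → MvPolynomial (Fin (n + 1)) ℂ) (B : Finset E) (f : ℂ → Fin (n + 1) → ℂ) : Prop :=
  Differentiable ℂ f ∧ (∀ z, OnX V h B (f z)) ∧ ∃ z w, ∀ c : ℂ, f z ≠ c • f w

/-- The holomorphic map from the punctured disc with the vector of homogeneous coordinates `f`
extends to a holomorphic map from the disc to projective space. -/
def Extends (f : ℂ → Fin (n + 1) → ℂ) : Prop :=
  ∃ g : ℂ → Fin (n + 1) → ℂ, DifferentiableOn ℂ g (ball 0 1) ∧ (∀ w ∈ ball (0 : ℂ) 1, g w ≠ 0) ∧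
    ∀ w ∈ ball (0 : ℂ) 1 \ {0}, ∃ c : ℂ, f w = c • g w

/-- `f` is the vector of homogeneous coordinates of a holomorphic map from the punctured disc to `X`
with an essential singularity. -/
def EssentialDisc (V : Set (MvPolynomial (Fin (n + 1)) (algebraicClosure k ℂ)))
    (h : E → MvPolynomial (Fin (n + 1)) ℂ) (B : Finset E) (f : ℂ → Fin (n + 1) → ℂ) : Prop :=
  DifferentiableOn ℂ f (ball 0 1 \ {0}) ∧ (∀ z ∈ ball (0 : ℂ) 1 \ {0}, OnX V h B (f z)) ∧
    ¬ Extends f

/-- The closed subvarieties of dimension `w` of `X` that are contained in the closed set with the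
equations `U` and are not of log general type are contained in the closed set with the
equations `T`. -/
def AlgIn (V : Set (MvPolynomial (Fin (n + 1)) (algebraicClosure k ℂ))) (Dh : E → ℕ)
    (h : E → MvPolynomial (Fin (n + 1)) ℂ) (B : Finset E) (w : ℕ)
    (U T : Set (MvPolynomial (Fin (n + 1)) ℂ)) : Prop :=
  ∀ (L : Type) [Field L] [Algebra ℂ L] (y : Fin (n + 1) → L), Var V h B w y →
    (∀ f ∈ U, aeval y f = 0) → ¬ LogGT Dh h B w y → ∀ f ∈ T, aeval y f = 0

/-- The entire curves in `X` that are contained in the closed set with the equations `U` are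
contained in the closed set with the equations `T`. -/
def EntIn (V : Set (MvPolynomial (Fin (n + 1)) (algebraicClosure k ℂ)))
    (h : E → MvPolynomial (Fin (n + 1)) ℂ) (B : Finset E)
    (U T : Set (MvPolynomial (Fin (n + 1)) ℂ)) : Prop :=
  ∀ f, EntireCurve V h B f → (∀ g ∈ U, ∀ z, eval (f z) g = 0) → ∀ g ∈ T, ∀ z, eval (f z) g = 0

/-- The same for the maps from the punctured disc with an essential singularity. -/
def DiscIn (V : Set (MvPolynomial (Fin (n + 1)) (algebraicClosure k ℂ)))
    (h : E → MvPolynomial (Fin (n + 1)) ℂ) (B : Finset E)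
    (U T : Set (MvPolynomial (Fin (n + 1)) ℂ)) : Prop :=
  ∀ f, EssentialDisc V h B f → (∀ g ∈ U, ∀ z ∈ ball (0 : ℂ) 1 \ {0}, eval (f z) g = 0) →
    ∀ g ∈ T, ∀ z ∈ ball (0 : ℂ) 1 \ {0}, eval (f z) g = 0

/-- The equations of the closed set given by the forms `G j`. -/
def base {J : Type} (G : J → MvPolynomial (Fin (n + 1)) (algebraicClosure k ℂ)) :
    Set (MvPolynomial (Fin (n + 1)) ℂ) :=
  Set.range fun j => map (algebraMap (algebraicClosure k ℂ) ℂ) (G j)

end defs

theorem result {k : Type} [Field k] [Algebra k ℂ] {n m : ℕ}
    -- a closed subset of projective space, of dimension at most `m`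
    (V : Set (MvPolynomial (Fin (n + 1)) (algebraicClosure k ℂ)))
    (hVh : ∀ f ∈ V, ∃ e, f.IsHomogeneous e) (hV : DimLE (algebraicClosure k ℂ) V m)
    -- the form with index `i` belongs to the equation or boundary component `q i`
    {E I : Type} [Fintype E] [Fintype I] (q : I → E)
    -- closed subsets `X_i`, given by forms `G i j` of degrees `e i j`
    {J : I → Type} [∀ i, Fintype (J i)] (e : ∀ i, J i → ℕ)
    (G : ∀ i, J i → MvPolynomial (Fin (n + 1)) (algebraicClosure k ℂ))
    (hG : ∀ i j, (G i j).IsHomogeneous (e i j))
    -- very general forms `P i j` of positive degrees `d i j`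
    (d : ∀ i, J i → ℕ) (hd : ∀ i j, 1 ≤ d i j) (P : ∀ i, J i → MvPolynomial (Fin (n + 1)) ℂ)
    (hP : ∀ i j, (P i j).IsHomogeneous (d i j))
    (hgen : AlgebraicIndependent k
      fun p : (a : Σ i, J i) × {M : Fin (n + 1) →₀ ℕ // M.degree = d a.1 a.2} =>
        (P p.1.1 p.1.2).coeff p.2.1)
    -- the forms `F i` of degree `D (q i)` in the ideals generated by the `G i j`
    (D : E → ℕ) (hD : ∀ i j, d i j + e i j = D (q i)) (F : I → MvPolynomial (Fin (n + 1)) ℂ)
    (hF : ∀ i, F i = ∑ j, P i j * map (algebraMap (algebraicClosure k ℂ) ℂ) (G i j))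
    -- the exponents, and the forms `h c = ∑ F i ^ N c`
    (N : E → ℕ) (hN : ∀ c, 1 ≤ N c) (h : E → MvPolynomial (Fin (n + 1)) ℂ)
    (hh : ∀ c, h c = pw q F N c)
    -- the equations are those in `B`, the others give the boundary
    (B : Finset E) (hI : 2 * m + Fintype.card E ≤ Fintype.card I + B.card) :
    -- (1) log general type
    (∀ (L : Type) [Field L] [Algebra ℂ L] (w s : ℕ) (y : Fin (n + 1) → L), 0 < w →
      (∀ c ∈ B, num q c ≤ s) → (∀ c, c ∉ B → num q c + 1 ≤ s) →
      (∀ c, w * ((s + 1) * ((s - 1) * (s - 2) / 2)) ≤ N c) → Var V h B w y →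
      (∀ i, ¬ ∀ f ∈ base (G i), aeval y f = 0) → LogGT (fun c => D c * N c) h B w y) ∧
    -- (2) varieties with a correspondence to `X`, if `X` is closed
    (∀ (K' L : Type) [Field K'] [Algebra ℂ K'] [Field L] [Algebra ℂ L] [Algebra L K']
      [IsScalarTower ℂ L K'] [FiniteDimensional L K'] (w r s : ℕ) (y : Fin (n + 1) → K'), 0 < w →
      (∀ c, c ∈ B) → Module.finrank L K' ≤ r → (∀ c, num q c ≤ s) →
      (∀ c, r * (w * ((s + 4) * ((s - 1) * (s - 2) / 2))) ≤ N c) → Var V h B w y →
      (∀ i, ¬ ∀ f ∈ base (G i), aeval y f = 0) → GeneralType ℂ L w) ∧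
    ((∀ c ∈ B, (num q c - 1) ^ 2 ≤ N c) → (∀ c, c ∉ B → num q c ^ 2 ≤ N c) →
      -- (3) entire curves
      (∀ f, EntireCurve V h B f → ∃ i, ∀ g ∈ base (G i), ∀ z, eval (f z) g = 0) ∧
      -- (4) essential singularities
      ∀ f, EssentialDisc V h B f →
        ∃ i, ∀ g ∈ base (G i), ∀ z ∈ ball (0 : ℂ) 1 \ {0}, eval (f z) g = 0) ∧
    -- (5) the special sets
    (∀ T : Set (MvPolynomial (Fin (n + 1)) ℂ),
      (∀ w s, 0 < w → (∀ c ∈ B, num q c ≤ s) → (∀ c, c ∉ B → num q c + 1 ≤ s) →
        (∀ c, w * ((s + 1) * ((s - 1) * (s - 2) / 2)) ≤ N c) →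
        (AlgIn V (fun c => D c * N c) h B w ∅ T ↔
          ∀ i, AlgIn V (fun c => D c * N c) h B w (base (G i)) T)) ∧
      ((∀ c ∈ B, (num q c - 1) ^ 2 ≤ N c) → (∀ c, c ∉ B → num q c ^ 2 ≤ N c) →
        (EntIn V h B ∅ T ↔ ∀ i, EntIn V h B (base (G i)) T) ∧
        (DiscIn V h B ∅ T ↔ ∀ i, DiscIn V h B (base (G i)) T))) ∧
    -- (6) the hypersurfaces through a point outside the `X_i` meet transversally there
    (∀ (T : Finset E) (x : Fin (n + 1) → ℂ), x ≠ 0 → (∀ c ∈ T, n < num q c) →
      (∀ c ∈ T, eval x (h c) = 0) → (∀ i, q i ∈ T → ¬ ∀ f ∈ base (G i), eval x f = 0) →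
      LinearIndependent ℂ fun (c : {c // c ∈ T}) (l : Fin (n + 1)) =>
        eval x (pderiv l (h c.1))) := by
  classical
  obtain rfl : h = pw q F N := funext hh
  let X : Pool.Agent.Helper21K9.FV.Data2 (algebraicClosure k ℂ) n m E I (Σ i, J i) :=
    { V := V
      hVh := hVh
      hV := hV
      q := q
      s := Sigma.fst
      dg := fun a => d a.1 a.2
      eg := fun a => e a.1 a.2
      D := D
      G := fun a => G a.1 a.2
      hG := fun a => hG a.1 a.2
      P := fun a => P a.1 a.2
      hP := fun a => hP a.1 a.2
      hD := fun a => hD a.1 a.2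
      hd := fun a => hd a.1 a.2
      hgen := hgen.algebraicClosure
      F := F
      hF := fun i => by
        rw [hF, Fintype.sum_sigma, Finset.sum_eq_single i]
        · simp
        · intro c' _ hc'
          refine Finset.sum_eq_zero fun j _ => ?_
          rw [if_neg]
          exact hc'
        · intro h
          exact absurd (Finset.mem_univ i) h }
  have hbase : ∀ {L : Type} [Field L] [Algebra ℂ L] (y : Fin (n + 1) → L) (i : I),
      (¬ ∀ f ∈ base (G i), aeval y f = 0) →
      ∃ a, X.s a = i ∧ aeval y (map (algebraMap (algebraicClosure k ℂ) ℂ) (X.G a)) ≠ 0 := by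
    intro L _ _ y i h
    push Not at h
    obtain ⟨f, ⟨j, rfl⟩, hf⟩ := h
    exact ⟨⟨i, j⟩, rfl, hf⟩
  have hhv : ∀ {L : Type} [Field L] [Algebra ℂ L] (y : Fin (n + 1) → L) (c : E),
      Pool.Agent.Helper21K9.FV.hv X N y c = aeval y (pw q F N c) := by
    intro L _ _ y c
    exact Pool.Agent.Helper21K9.FV.hv_eq X N y c
  have hI' : 2 * m + Bᶜ.card ≤ Fintype.card I := by
    rw [Finset.card_compl]
    have := Finset.card_le_univ B
    omega
  have h1 : ∀ (L : Type) [Field L] [Algebra ℂ L] (w s : ℕ) (y : Fin (n + 1) → L), 0 < w →
      (∀ c ∈ B, num q c ≤ s) → (∀ c, c ∉ B → num q c + 1 ≤ s) →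
      (∀ c, w * ((s + 1) * ((s - 1) * (s - 2) / 2)) ≤ N c) → Var V (pw q F N) B w y →
      (∀ i, ¬ ∀ f ∈ base (G i), aeval y f = 0) →
      LogGT (fun c => D c * N c) (pw q F N) B w y := by
    intro L _ _ w s y hw hsB hsC hNs hy hyB
    obtain ⟨⟨hy0, hyV, hyF, hyC⟩, htr, halg⟩ := hy
    have h2 := Pool.Agent.Helper21K9.FV.alg' Pool.Agent.Helper53K9.VG.t' X N B w s y hw htr hy0
      halg hyV (fun i => hbase y i (hyB i)) (fun c hc => by rw [hhv]; exact hyF c hc)
      (fun c hc => by rw [hhv]; exact hyC c hc) hI' hN hsB hsC hNs
    simp only [hhv] at h2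
    exact h2
  have h34 : (∀ c ∈ B, (num q c - 1) ^ 2 ≤ N c) → (∀ c, c ∉ B → num q c ^ 2 ≤ N c) →
      (∀ f, EntireCurve V (pw q F N) B f →
        ∃ i, ∀ g ∈ base (G i), ∀ z, eval (f z) g = 0) ∧
      ∀ f, EssentialDisc V (pw q F N) B f →
        ∃ i, ∀ g ∈ base (G i), ∀ z ∈ ball (0 : ℂ) 1 \ {0}, eval (f z) g = 0 := by
    intro hNB hNC
    refine ⟨?_, ?_⟩
    · rintro f ⟨hf1, hf2, hf3⟩
      obtain ⟨i, hi⟩ := Pool.Agent.Helper21K9.FV.ent' Pool.Agent.Helper53K9.VG.t' X N B f hf1
        (fun z => ⟨(hf2 z).1, (hf2 z).2.1, fun c hc => by rw [hhv]; exact (hf2 z).2.2.1 c hc,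
          fun c hc => by rw [hhv]; exact (hf2 z).2.2.2 c hc⟩) hf3 hI hN hNB hNC
      refine ⟨i, ?_⟩
      rintro g ⟨j, rfl⟩ z
      exact hi z ⟨i, j⟩ rfl
    · rintro f ⟨hf1, hf2, hf3⟩
      obtain ⟨i, hi⟩ := Pool.Agent.Helper21K9.FV.disc' Pool.Agent.Helper53K9.VG.t' X N B f hf1
        (fun z hz => ⟨(hf2 z hz).1, (hf2 z hz).2.1,
          fun c hc => by rw [hhv]; exact (hf2 z hz).2.2.1 c hc,
          fun c hc => by rw [hhv]; exact (hf2 z hz).2.2.2 c hc⟩) hI' hN hNB hNC hf3
      refine ⟨i, ?_⟩
      rintro g ⟨j, rfl⟩ z hz
      exact hi z hz ⟨i, j⟩ rfl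
  refine ⟨h1, ?_, h34, fun T => ⟨fun w s hw hsB hsC hNs => ⟨fun h i L _ _ y hy hyU hyL => ?_,
    fun h L _ _ y hy _ hyL => ?_⟩, fun hNB hNC => ⟨⟨fun h i f hf hfU => ?_,
      fun h f hf _ => ?_⟩, ⟨fun h i f hf hfU => ?_, fun h f hf _ => ?_⟩⟩⟩, ?_⟩
  · intro K' L _ _ _ _ _ _ _ w r s y hw hB hr hs hNs hy hyB
    obtain ⟨⟨hy0, hyV, hyF, -⟩, htr, halg⟩ := hy
    refine Pool.Agent.Helper21K9.FV.corr' Pool.Agent.Helper53K9.VG.t' X N w r s y hw htr hy0 halg hr
      hyV (fun i => hbase y i (hyB i)) (fun c => by rw [hhv]; exact hyF c (hB c)) ?_ hN hs hNs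
    have h2 : B = Finset.univ := Finset.eq_univ_iff_forall.2 hB
    rw [h2, Finset.card_univ] at hI
    omega
  · exact h L y hy (fun f hf => absurd hf (Set.notMem_empty f)) hyL
  · by_cases hc : ∀ i, ¬ ∀ f ∈ base (G i), aeval y f = 0
    · exact absurd (h1 L w s y hw hsB hsC hNs hy hc) hyL
    · push Not at hc
      obtain ⟨i, hc⟩ := hc
      exact h i L y hy hc hyL
  · exact h f hf (fun g hg => absurd hg (Set.notMem_empty g))
  · obtain ⟨i, hi⟩ := (h34 hNB hNC).1 f hf
    exact h i f hf hi
  · exact h f hf (fun g hg => absurd hg (Set.notMem_empty g))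
  · obtain ⟨i, hi⟩ := (h34 hNB hNC).2 f hf
    exact h i f hf hi
  · intro T x hx hn hT ha
    exact Pool.Agent.Helper53K9.VG.snc X N x hx T (fun i hi => hbase x i (ha i hi))
      (fun c hc => by rw [hhv]; exact hT c hc) hn hN

end Pool.Agent.Results.MP_160ed4_ag.PrescribedFiveSets
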