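import Pool.Agent.Helper21K9.UV.Main
import Pool.Agent.Helper53K9.UV.Gm
import Pool.Agent.Helper53K9.UV.Hol

/-!
MP_160ed4_ag: log pairs of general type whose algebraic special set is prescribed. The generic
hypersurfaces of high degree through arbitrary closed subsets `X_c` of projective space have no
subvarieties that are not of general type, except in `X_c`; in the boundary of a log pair such base
loci are allowed without any exceptions. The same is true for the curves given by linear systems of
differential equations.

Let `k` be a subfield of the complex numbers, with algebraic closure `k'` in them (for example the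
algebraic closure of the field generated by the finitely many coefficients of the equations of `V`
and of the `X_c` below, which is countable). Let `V` be a closed subset of projective space, defined
over `k'`, of dimension at most `m`. For `c` in a finite set `C` let `X_c` be a closed subset of
projective space, given by forms `G_cj` over `k'` of degrees `e_cj`; it is arbitrary. Let `D_c` be a
degree, let `P_cj` be very general forms of degrees `d_cj = D_c - e_cj`, at least `δ_c` (all their
coefficients together are algebraically independent over `k`), and let `F_c = ∑_j P_cj G_cj`: the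
very general form of degree `D_c` in the ideal generated by the `G_cj`. Let `B` be a subset of `C`,
and let `X` be the set of the points of `V` which are on the hypersurfaces `F_c = 0` for `c` in `B`
and not on them for `c` not in `B`. So the closure of `X` contains in general the closed subset
`V ∩ ⋂ X_c`, `c` in `B`, and `X_c` is in the base locus of the component `F_c = 0` of the boundary
for `c` not in `B`. Then:

(1) If `w > 0` and `2 m + 2 ≤ ∑ δ_c + |B| + w`, every closed subvariety of `X` of dimension `w` that
    is not contained in any `X_c`, `c` in `B`, is of log general type. For the dimension `w` of `X`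
    this shows that `X` is of log general type, condition (1) of the question.
(2) Let `2 m + 1 ≤ ∑ δ_c + |B|`. A closed set contains all closed subvarieties of `X` of positive
    dimension that are not of log general type if and only if it contains those of the sets
    `X ∩ X_c`, `c` in `B`. In other words: `Sp_alg (X)` is the union of the sets
    `Sp_alg (X ∩ X_c)`, `c` in `B`. If `B` is empty, there are no such subvarieties at all, for
    arbitrary base loci `X_c` of the boundary.
(3) Let `L` be a function field of one variable of genus `g`, and let `y` be the generic point of a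
    curve in `X`, over `L`, that is not contained in any `X_c`, `c` in `B`. Then
    `(∑ δ_c + |B| - 2 m) deg y ≤ 2 g - 2 + #{places of L with centre in the boundary}`, where
    `deg y` is the degree of the map to projective space given by `y`. So the pair is
    algebraically hyperbolic outside the `X_c`, in the sense of Demailly and Chen, with an explicit
    constant.
(4) Let `2 m + 1 ≤ ∑ δ_c + |B|`. The image of each nonconstant morphism from the multiplicative
    group to `X`, of each holomorphic map from the punctured disc to `X` with an essential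
    singularity and of each nonconstant entire curve in `X`, the last two given by linear systems of
    differential equations, is contained in one of the `X_c`, `c` in `B`. In particular there
    are no such curves if `B` is empty.
(5) Let `D_c > e_cj` for all `j`, and let `r` be at least the dimension of `X_c`. Then the singular
    points of the hypersurface `F_c = 0` are points of `X_c` at which the Jacobian matrix of the
    forms `G_cj` has rank at most `r`. So the hypersurface is smooth if `X_c` is smooth of pure
    dimension `r`, with `2 r < n`, and is defined by the `G_cj` as a scheme.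

So conditions (1) and (2) of the question hold together, with a special set that can be prescribed,
and `Sp_sab (X)` is contained in `Sp_alg (X)`, so condition (5) of the question holds, too; by part
(4) of the theorem so do its conditions (3) and (4), if only curves given by linear systems of
differential equations are considered. For example, let `Z` be an arbitrary smooth projective
variety, in a projective space of dimension `n > 2 dim Z`, that is the closure of the union of its
subvarieties of positive dimension that are not of general type (an abelian variety, a Fano variety,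
a ruled variety, ...), and let `Z` be given as a scheme by forms of
degree `e`. Let `H` be a very general hypersurface of degree at least `e + 2 n` through `Z`. By (1),
(2), (5), `H` is a smooth projective variety of general type, and `Sp_alg (H) = Z`. The same is true
for the union of several such varieties without common points. For the complement `X` in `H` of very
general hypersurfaces through further arbitrary closed sets `X_c`, the special set is that of
`Z ∩ X`; the `X_c` themselves have no influence.

A closed subvariety of `X` of dimension `w` is given by its generic point `y`, in homogeneous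
coordinates, over its function field `L` or a finite extension of it. A prime divisor `Q` over its
closure has its centre in the boundary if `D_c min_i ord_Q (y_i) < ord_Q (F_c (y))` for some `c` not
in `B`; `pord Q y` is the minimum of the orders `ord_Q (y_i)`. The condition `DimLE` says that the
ratios of the homogeneous coordinates of the points of the closed set over all extension fields
generate extensions of transcendence degree at most the given bound.

The starting results VeryGeneralDivisors (part (4) without base loci) and
MP_64ff02_ag.GenericPairsSpecialSet (the special set for the projective space and forms without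
base locus) are about forms without base locus, all `G_cj = 1`, for which `Sp_alg (X)` is empty in
the range of (2).
-/

set_option autoImplicit false

namespace Pool.Agent.Results.MP_160ed4_ag.PrescribedSpecialSets

open MvPolynomial FF Pool.Agent.W603.LV Pool.Agent.W603.PV Pool.Agent.W602.GT
  Pool.Agent.TH145.MG
open Pool.Agent.TH143 (LinSys On IsGmCurve)
open Pool.Agent.W603.BP (Extends)

section defs

variable {k : Type} [Field k] [Algebra k ℂ] {n : ℕ} {C : Type}

/-- The point `x` of projective space, over a field `L`, is on `V` and on the hypersurfaces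
`F c = 0` for `c ∈ B`, and not on the hypersurfaces `F c = 0` for the other `c`. -/
def OnPair (V : Set (MvPolynomial (Fin (n + 1)) (algebraicClosure k ℂ)))
    (F : C → MvPolynomial (Fin (n + 1)) ℂ) (B : Finset C) {L : Type} [Field L] [Algebra ℂ L]
    (x : Fin (n + 1) → L) : Prop :=
  x ≠ 0 ∧ (∀ f ∈ V, aeval x (map (algebraMap (algebraicClosure k ℂ) ℂ) f) = 0) ∧
    (∀ c ∈ B, aeval x (F c) = 0) ∧ ∀ c, c ∉ B → aeval x (F c) ≠ 0

/-- `L` is (a finite extension of) the function field, and `y` the generic point, of a closed
subvariety of dimension `w` of `X`. -/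
def Subvariety (V : Set (MvPolynomial (Fin (n + 1)) (algebraicClosure k ℂ)))
    (F : C → MvPolynomial (Fin (n + 1)) ℂ) (B : Finset C) {L : Type} [Field L] [Algebra ℂ L]
    (w : ℕ) (y : Fin (n + 1) → L) : Prop :=
  OnPair V F B y ∧ Algebra.trdeg ℂ L = w ∧ Algebra.IsAlgebraic (coords ℂ y) L

/-- The subvariety with generic point `y` of the complement of `F c = 0`, `c ∉ B`, is of log general
type; the degree of `F c` is `D c`. -/
def LogGT (D : C → ℕ) (F : C → MvPolynomial (Fin (n + 1)) ℂ) (B : Finset C) {L : Type} [Field L]
    [Algebra ℂ L] (w : ℕ) (y : Fin (n + 1) → L) : Prop :=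
  LogGeneralType ℂ L w fun Q : Place ℂ L =>
    ∃ c, c ∉ B ∧ D c * pord Q y < Q.ord (aeval y (F c))

/-- The closed subvarieties of positive dimension of `X` that are contained in the closed set with
the equations `U` and are not of log general type are contained in the closed set with the
equations `T`. -/
def SpecialIn (V : Set (MvPolynomial (Fin (n + 1)) (algebraicClosure k ℂ))) (D : C → ℕ)
    (F : C → MvPolynomial (Fin (n + 1)) ℂ) (B : Finset C)
    (U T : Set (MvPolynomial (Fin (n + 1)) ℂ)) : Prop :=
  ∀ (L : Type) [Field L] [Algebra ℂ L] (w : ℕ) (y : Fin (n + 1) → L), 0 < w →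
    Subvariety V F B w y → (∀ f ∈ U, aeval y f = 0) → ¬ LogGT D F B w y → ∀ f ∈ T, aeval y f = 0

/-- The equations of the closed set given by the forms `G j`. -/
def base {J : Type} (G : J → MvPolynomial (Fin (n + 1)) (algebraicClosure k ℂ)) :
    Set (MvPolynomial (Fin (n + 1)) ℂ) :=
  Set.range fun j => map (algebraMap (algebraicClosure k ℂ) ℂ) (G j)

/-- The polynomials `p`, without common zeros outside the origin, define a nonconstant morphism
from the multiplicative group to `X`. -/
structure GmCurve (V : Set (MvPolynomial (Fin (n + 1)) (algebraicClosure k ℂ)))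
    (F : C → MvPolynomial (Fin (n + 1)) ℂ) (B : Finset C) (p : Fin (n + 1) → Polynomial ℂ) :
    Prop where
  mem : ∀ t : ℂ, t ≠ 0 → OnPair V F B fun j => (p j).eval t
  nonconst : ∃ s t, s ≠ 0 ∧ t ≠ 0 ∧ ∃ i j, (p i).eval s * (p j).eval t ≠ (p j).eval s * (p i).eval t

/-- A holomorphic map from the punctured unit disc to `X` with an essential singularity at the
origin, whose homogeneous coordinates come from a solution of a linear system of differential
equations with coefficients meromorphic at the origin. -/
structure PunctCurve (V : Set (MvPolynomial (Fin (n + 1)) (algebraicClosure k ℂ)))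
    (F : C → MvPolynomial (Fin (n + 1)) ℂ) (B : Finset C) (f : ℂ → Fin (n + 1) → ℂ) : Prop where
  an : ∀ j, AnalyticOnNhd ℂ (fun w => f w j) {w : ℂ | w ≠ 0 ∧ ‖w‖ < 1}
  mem : ∀ w : ℂ, w ≠ 0 → ‖w‖ < 1 → OnPair V F B (f w)
  lin : LinSys f
  ess : ¬ Extends f

/-- A nonconstant holomorphic map from the line to `X`, whose homogeneous coordinates come, near
infinity, from a solution of a linear system of differential equations with coefficients
meromorphic at infinity. -/
structure EntCurve (V : Set (MvPolynomial (Fin (n + 1)) (algebraicClosure k ℂ)))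
    (F : C → MvPolynomial (Fin (n + 1)) ℂ) (B : Finset C) (f : ℂ → Fin (n + 1) → ℂ) : Prop where
  an : ∀ j, Differentiable ℂ (fun z => f z j)
  mem : ∀ z : ℂ, OnPair V F B (f z)
  lin : LinSys (fun w => f w⁻¹)
  nonconst : ∃ z w i j, f z i * f w j ≠ f z j * f w i

end defs

/-- The places of `L` with centre in the boundary are finite in number. -/
theorem finite_bd {C : Type} [Finite C] {n : ℕ} {L : Type} [Field L] [Algebra ℂ L] [IsFF ℂ L]
    (D : C → ℕ) (F : C → MvPolynomial (Fin (n + 1)) ℂ) (B : Finset C) {y : Fin (n + 1) → L}
    (hy : ∃ j, y j ≠ 0) :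
    {Q : Place ℂ L | ∃ c, c ∉ B ∧ D c * pord Q y < Q.ord (aeval y (F c))}.Finite := by
  have h1 : {Q : Place ℂ L | ∃ c, c ∉ B ∧ D c * pord Q y < Q.ord (aeval y (F c))} ⊆
      (Function.support fun Q : Place ℂ L => pord Q y) ∪
        ⋃ c : C, {Q : Place ℂ L | Q.ord (aeval y (F c)) ≠ 0} := by
    rintro Q ⟨c, -, hc⟩
    by_contra hcon
    rw [Set.mem_union, not_or, Function.mem_support, not_not, Set.mem_iUnion, not_exists] at hcon
    have h2 : Q.ord (aeval y (F c)) = 0 := by
      by_contra h3
      exact hcon.2 c h3
    rw [hcon.1, h2, mul_zero] at hc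
    exact lt_irrefl _ hc
  exact ((pord_finite hy).union (Set.finite_iUnion fun c => finite_support _)).subset h1

theorem result {k : Type} [Field k] [Algebra k ℂ] {n m : ℕ}
    -- a closed subset of projective space, of dimension at most `m`
    (V : Set (MvPolynomial (Fin (n + 1)) (algebraicClosure k ℂ)))
    (hVh : ∀ f ∈ V, ∃ e, f.IsHomogeneous e) (hV : DimLE (algebraicClosure k ℂ) V m)
    -- closed subsets `X_c`, given by forms `G c j` of degrees `e c j`
    {C : Type} [Fintype C] {J : C → Type} [∀ c, Fintype (J c)] (e : ∀ c, J c → ℕ)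
    (G : ∀ c, J c → MvPolynomial (Fin (n + 1)) (algebraicClosure k ℂ))
    (hG : ∀ c j, (G c j).IsHomogeneous (e c j))
    -- very general forms `P c j` of degrees `d c j`
    (d : ∀ c, J c → ℕ) (P : ∀ c, J c → MvPolynomial (Fin (n + 1)) ℂ)
    (hP : ∀ c j, (P c j).IsHomogeneous (d c j))
    (hgen : AlgebraicIndependent k
      fun p : (a : Σ c, J c) × {I : Fin (n + 1) →₀ ℕ // I.degree = d a.1 a.2} =>
        (P p.1.1 p.1.2).coeff p.2.1)
    -- the forms `F c` of degrees `D c` in the ideals generated by the `G c j`
    (D : C → ℕ) (hD : ∀ c j, d c j + e c j = D c) (F : C → MvPolynomial (Fin (n + 1)) ℂ)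
    (hF : ∀ c, F c = ∑ j, P c j * map (algebraMap (algebraicClosure k ℂ) ℂ) (G c j))
    -- lower bounds for the degrees of the `P c j`
    (δ : C → ℕ) (hδ : ∀ c j, δ c ≤ d c j)
    -- the compact equations are those with index in `B`, the others give the boundary
    (B : Finset C) :
    -- (1) the subvarieties that are not contained in the `X_c`, `c ∈ B`
    (∀ (L : Type) [Field L] [Algebra ℂ L] (w : ℕ) (y : Fin (n + 1) → L), 0 < w →
      2 * m + 2 ≤ ∑ c, δ c + B.card + w → Subvariety V F B w y →
      (∀ c ∈ B, ¬ ∀ f ∈ base (G c), aeval y f = 0) → LogGT D F B w y) ∧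
    -- (2) the special set
    (2 * m + 1 ≤ ∑ c, δ c + B.card → ∀ T : Set (MvPolynomial (Fin (n + 1)) ℂ),
      SpecialIn V D F B ∅ T ↔ ∀ c ∈ B, SpecialIn V D F B (base (G c)) T) ∧
    -- (3) the inequality for curves
    (∀ (L : Type) [Field L] [Algebra ℂ L] [IsFF ℂ L] (y : Fin (n + 1) → L),
      Subvariety V F B 1 y → (∀ c ∈ B, ¬ ∀ f ∈ base (G c), aeval y f = 0) →
      {Q : Place ℂ L | ∃ c, c ∉ B ∧ D c * pord Q y < Q.ord (aeval y (F c))}.Finite ∧
      (((∑ c, δ c + B.card : ℕ) : ℤ) - 2 * m) * pht ℂ y ≤ canDeg ℂ L +
        {Q : Place ℂ L | ∃ c, c ∉ B ∧ D c * pord Q y < Q.ord (aeval y (F c))}.ncard) ∧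
    -- (4) images of the multiplicative group, and curves given by linear differential equations
    (2 * m + 1 ≤ ∑ c, δ c + B.card →
      (∀ p, GmCurve V F B p → ∃ c ∈ B, ∀ f ∈ base (G c), ∀ t,
        eval (fun i => (p i).eval t) f = 0) ∧
      (∀ f, PunctCurve V F B f → ∃ c ∈ B, ∀ g ∈ base (G c), ∀ w : ℂ, w ≠ 0 → ‖w‖ < 1 →
        eval (f w) g = 0) ∧
      (∀ f, EntCurve V F B f → ∃ c ∈ B, ∀ g ∈ base (G c), ∀ z, eval (f z) g = 0)) ∧
    -- (5) the singular points of `F c = 0`
    (∀ (c : C) (r : ℕ), (∀ j, 1 ≤ d c j) → DimLE (algebraicClosure k ℂ) (Set.range (G c)) r →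
      ∀ x : Fin (n + 1) → ℂ, x ≠ 0 → (∀ l, eval x (pderiv l (F c)) = 0) →
        (∀ j, aeval x (G c j) = 0) ∧
        (Matrix.of fun (j : J c) (l : Fin (n + 1)) => aeval x (pderiv l (G c j))).rank ≤ r) := by
  classical
  have hfv : ∀ (L : Type) [Field L] [Algebra ℂ L] (y : Fin (n + 1) → L) (c : C),
      Pool.Agent.Helper21K9.UV.fv Sigma.fst
        (fun a : Σ c, J c => map (algebraMap ℂ L) (P a.1 a.2))
        (fun a : Σ c, J c => map (algebraMap ℂ L)
          (map (algebraMap (algebraicClosure k ℂ) ℂ) (G a.1 a.2))) c y = aeval y (F c) := by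
    intro L _ _ y c
    rw [Pool.Agent.Helper21K9.UV.sum_sigma_fv, hF, map_sum]
    refine Finset.sum_congr rfl fun j _ => ?_
    rw [map_mul, eval_map, eval_map]
    rfl
  have h1 : ∀ (L : Type) [Field L] [Algebra ℂ L] (w : ℕ) (y : Fin (n + 1) → L), 0 < w →
      2 * m + 2 ≤ ∑ c, δ c + B.card + w → Subvariety V F B w y →
      (∀ c ∈ B, ¬ ∀ f ∈ base (G c), aeval y f = 0) → LogGT D F B w y := by
    intro L _ _ w y hw hd hy hyB
    obtain ⟨⟨hy0, hyV, hyC, hyD⟩, htr, halg⟩ := hy
    have h2 := Pool.Agent.Helper53K9.UV.log_general2 (C := C) V hVh hV (A := Σ c, J c)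
      (dg := fun a => d a.1 a.2) (eg := fun a => e a.1 a.2) (fun a => G a.1 a.2)
      (fun a => hG a.1 a.2) Sigma.fst D δ (fun a => hD a.1 a.2) (fun a => hδ a.1 a.2)
      (fun a => P a.1 a.2) (fun a => hP a.1 a.2) hgen.algebraicClosure B hw hd htr y hy0 halg hyV
      (fun c hc => by rw [hfv, hyC c hc])
      (fun c hc => by
        have h3 := hyB c hc
        push Not at h3
        obtain ⟨f, ⟨j, rfl⟩, hf⟩ := h3
        exact ⟨⟨c, j⟩, rfl, hf⟩)
      (fun c hc => by
        rw [hfv]
        exact hyD c hc)
    unfold LogGT
    simp only [hfv] at h2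
    exact h2
  have hFh : ∀ c, (F c).IsHomogeneous (D c) := fun c => by
    rw [hF]
    refine IsHomogeneous.sum _ _ _ fun j _ => ?_
    rw [← hD c j]
    exact (hP c j).mul ((hG c j).map _)
  -- the multiplicative group
  have hgm : 2 * m + 1 ≤ ∑ c, δ c + B.card → ∀ p : Fin (n + 1) → Polynomial ℂ,
      GmCurve V F B p → ∃ c ∈ B, ∀ j t, eval (fun i => (p i).eval t)
        (map (algebraMap (algebraicClosure k ℂ) ℂ) (G c j)) = 0 := by
    intro hd p hp
    obtain ⟨h2, h3, h4, h5⟩ := Pool.Agent.Helper53K9.UV.gm_not_log (p := p) D F B
      (fun c hc t ht => (hp.mem t ht).2.2.2 c hc) hp.nonconst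
    by_contra hcon
    refine h5 (h1 (RatFunc ℂ) 1 (Pool.Agent.Helper53K9.UV.gy p) one_pos (by omega)
      ⟨⟨h2, fun f hf => Pool.Agent.Helper53K9.UV.gy_zero fun t ht => (hp.mem t ht).2.1 f hf,
        fun c hc => Pool.Agent.Helper53K9.UV.gy_zero fun t ht => (hp.mem t ht).2.2.1 c hc,
        fun c hc => (Pool.Agent.Helper53K9.UV.gy_unit
          fun t ht => (hp.mem t ht).2.2.2 c hc).1⟩, h3, h4⟩ fun c hc hall => hcon ⟨c, hc,
            fun j => Pool.Agent.Helper53K9.UV.gy_zero' (hall _ ⟨j, rfl⟩)⟩)
  -- the curves given by linear differential equations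
  have hlin := fun hd => Pool.Agent.Helper53K9.UV.lin_in (C := C)
    (Sum.elim (fun f : V => map (algebraMap (algebraicClosure k ℂ) ℂ) f.1)
      (fun c : {c // c ∈ B} => F c.1)) (by
      rintro (f | c)
      · obtain ⟨e', he'⟩ := hVh f.1 f.2
        exact ⟨e', he'.map _⟩
      · exact ⟨_, hFh c.1⟩) (∏ c ∈ Finset.univ \ B, F c)
    (IsHomogeneous.prod _ _ _ fun c _ => hFh c) B
    (fun c j => map (algebraMap (algebraicClosure k ℂ) ℂ) (G c j))
    (fun c j => ⟨e c j, (hG c j).map _⟩) (fun p hp => hgm hd p ⟨fun t ht => by
      obtain ⟨h2, h3⟩ := hp.mem t ht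
      obtain ⟨j, hj⟩ := hp.ne t ht
      refine ⟨Function.ne_iff.2 ⟨j, hj⟩, fun f hf => h2 (Sum.inl ⟨f, hf⟩),
        fun c hc => h2 (Sum.inr ⟨c, hc⟩), fun c hc => ?_⟩
      rw [map_prod, Finset.prod_ne_zero_iff] at h3
      exact h3 c (Finset.mem_sdiff.2 ⟨Finset.mem_univ _, hc⟩), hp.nonconst⟩)
  have hon : ∀ x : Fin (n + 1) → ℂ, OnPair V F B x →
      On (Sum.elim (fun f : V => map (algebraMap (algebraicClosure k ℂ) ℂ) f.1)
        (fun c : {c // c ∈ B} => F c.1)) (∏ c ∈ Finset.univ \ B, F c) x := by
    rintro x ⟨-, h2, h3, h4⟩
    refine ⟨?_, ?_⟩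
    · rintro (f | c)
      · exact h2 f.1 f.2
      · exact h3 c.1 c.2
    · rw [map_prod, Finset.prod_ne_zero_iff]
      intro c hc
      exact h4 c (Finset.mem_sdiff.1 hc).2
  refine ⟨h1, fun hd T => ⟨fun h c _ L _ _ w y hw hy hyU hyL => ?_,
    fun h L _ _ w y hw hy _ hyL => ?_⟩, fun L _ _ _ y hy hyB => ?_,
    fun hd => ⟨fun p hp => ?_, fun f hf => ?_, fun f hf => ?_⟩, fun c r hd1 hr x hx h0 => ?_⟩
  · exact h L w y hw hy (fun f hf => absurd hf (Set.notMem_empty f)) hyL
  · by_cases hc : ∀ c ∈ B, ¬ ∀ f ∈ base (G c), aeval y f = 0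
    · exact absurd (h1 L w y hw (by omega) hy hc) hyL
    · push Not at hc
      obtain ⟨c, hcB, hc⟩ := hc
      exact h c hcB L w y hw hy hc hyL
  · obtain ⟨⟨hy0, hyV, hyC, hyD⟩, htr, halg⟩ := hy
    have hyj := Function.ne_iff.1 hy0
    have hfin := finite_bd (L := L) D F B hyj
    refine ⟨hfin, ?_⟩
    rw [Set.ncard_eq_toFinset_card _ hfin]
    refine Pool.Agent.Helper53K9.UV.log_curve (C := C) V hVh hV (A := Σ c, J c)
      (dg := fun a => d a.1 a.2) (eg := fun a => e a.1 a.2) (fun a => G a.1 a.2)
      (fun a => hG a.1 a.2) Sigma.fst D δ (fun a => hD a.1 a.2) (fun a => hδ a.1 a.2)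
      (fun a => P a.1 a.2) (fun a => hP a.1 a.2) hgen.algebraicClosure B y ?_ hyV
      (fun c hc => by rw [hfv, hyC c hc])
      (fun c hc => by
        have h3 := hyB c hc
        push Not at h3
        obtain ⟨f, ⟨j, rfl⟩, hf⟩ := h3
        exact ⟨⟨c, j⟩, rfl, hf⟩)
      (fun c hc => by
        rw [hfv]
        exact hyD c hc) hfin.toFinset (fun Q hQ => ?_)
    · by_contra hcon
      push Not at hcon
      have h3 : coords ℂ y ≤ ⊥ := by
        unfold coords
        rw [IntermediateField.adjoin_le_iff]
        rintro z ⟨i, j, hj, rfl⟩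
        obtain ⟨c, hc⟩ := hcon i j hj
        exact IntermediateField.mem_bot.2 ⟨c, hc⟩
      have h4 : Algebra.IsAlgebraic ℂ L := by
        refine ⟨fun z => ?_⟩
        obtain ⟨q, hq0, hq⟩ := halg.isAlgebraic z
        have h5 : Algebra.IsAlgebraic ℂ (coords ℂ y) := by
          rw [le_bot_iff.1 h3]
          infer_instance
        exact (IsAlgebraic.restrictScalars ℂ (⟨q, hq0, hq⟩ : IsAlgebraic (coords ℂ y) z))
      rw [_root_.trdeg_eq_zero_iff.2 h4] at htr
      exact zero_ne_one (htr.trans Nat.cast_one)
    · rw [Set.Finite.mem_toFinset]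
      simp only [hfv] at hQ
      exact hQ
  · obtain ⟨c, hc, hcj⟩ := hgm hd p hp
    refine ⟨c, hc, ?_⟩
    rintro f ⟨j, rfl⟩ t
    exact hcj j t
  · obtain ⟨c, hc, hcj⟩ := (hlin hd).1 f hf.an (fun w h2 h3 => (hf.mem w h2 h3).1)
      (fun w h2 h3 => hon _ (hf.mem w h2 h3)) hf.lin hf.ess
    refine ⟨c, hc, ?_⟩
    rintro g ⟨j, rfl⟩ w h2 h3
    exact hcj w h2 h3 j
  · obtain ⟨c, hc, hcj⟩ := (hlin hd).2 f hf.an (fun w => (hf.mem w).1)
      (fun w => hon _ (hf.mem w)) hf.lin hf.nonconst
    refine ⟨c, hc, ?_⟩
    rintro g ⟨j, rfl⟩ z
    exact hcj z j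
  · exact Pool.Agent.Helper21K9.UV.main_sing hG hP hgen hD hF c hd1 hr x hx h0

end Pool.Agent.Results.MP_160ed4_ag.PrescribedSpecialSets
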