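import Mathlib
import Pool.Agent.Helper4K9.US.Red

/-!
MP_160ed4_ag, Q1: a second main theorem, with the counting function of the degenerate points, for
the curves in quasi-projective varieties which are not contained in the special set swept out by the
morphisms of bounded degree from the multiplicative group, uniformly in families of varieties.
-/

set_option autoImplicit false

namespace Pool.Agent.Results.MP_160ed4_ag.UniformSecondMain

open MvPolynomial Metric Set Filter Topology FF
open Pool.Agent.W602.GT Pool.Agent.TH143 Pool.Agent.TH143.GT Pool.Agent.W603.BP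
  Pool.Agent.W603.BPR Pool.Agent.W603.GR Pool.Agent.W603.PV Pool.Agent.Helper4K9.IP
  Pool.Agent.Helper4K9.AP Pool.Agent.Helper4K9.MP Pool.Agent.Helper4K9.BW Pool.Agent.Helper4K9.US

variable {n : ℕ}

/-- The Zariski closure in `X` of the union of the images of the holomorphic maps from the punctured
disc to `X` with an essential singularity. -/
def SpP (F : Set (MvPolynomial (Fin (n + 1)) ℂ)) (Q : MvPolynomial (Fin (n + 1)) ℂ) :
    Set (Fin (n + 1) → ℂ) :=
  {x | x ∈ Pts F Q ∧ ∀ G : MvPolynomial (Fin (n + 1)) ℂ, IsForm G →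
    (∀ f, DCurve F Q f → ¬ Extends f → ∀ z ∈ ball (0 : ℂ) 1 \ {0}, eval (f z) G = 0) →
      eval x G = 0}

/-- The Zariski closure in `X` of the union of the images of the nonconstant holomorphic maps from
the line to `X`. -/
def SpH (F : Set (MvPolynomial (Fin (n + 1)) ℂ)) (Q : MvPolynomial (Fin (n + 1)) ℂ) :
    Set (Fin (n + 1) → ℂ) :=
  {x | x ∈ Pts F Q ∧ ∀ G : MvPolynomial (Fin (n + 1)) ℂ, IsForm G →
    (∀ f, ECurve F Q f → (∃ z w, ∀ c : ℂ, f z ≠ c • f w) → ∀ z, eval (f z) G = 0) →
      eval x G = 0}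

/-- The Zariski closure in `X` of the union of the closed subvarieties of positive dimension of `X`
which are not of log general type: a form `G` vanishes on all of them if and only if the closed
subvarieties of positive dimension which are not contained in `G = 0` are of log general type. -/
def SpAlg (F : Set (MvPolynomial (Fin (n + 1)) ℂ)) (Q : MvPolynomial (Fin (n + 1)) ℂ) (q : ℕ) :
    Set (Fin (n + 1) → ℂ) :=
  {x | x ∈ Pts F Q ∧ ∀ G : MvPolynomial (Fin (n + 1)) ℂ, IsForm G →
    SubLogGT (Ideal.span F) Q q G → eval x G = 0}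

/-- `X` is irreducible, `K` is its function field, `w` its dimension and `y` its generic point. -/
structure Generic (F : Set (MvPolynomial (Fin (n + 1)) ℂ)) (Q : MvPolynomial (Fin (n + 1)) ℂ)
    (K : Type) [Field K] [Algebra ℂ K] (w : ℕ) (y : Fin (n + 1) → K) : Prop where
  ne : y ≠ 0
  gen : coords ℂ y = ⊤
  dim : Algebra.trdeg ℂ K = w
  rel : ∀ G : MvPolynomial (Fin (n + 1)) ℂ, IsForm G →
    (W602.GT.val y G = 0 ↔ ∀ x ∈ Pts F Q, eval x G = 0)

variable {F : Set (MvPolynomial (Fin (n + 1)) ℂ)} {Q : MvPolynomial (Fin (n + 1)) ℂ} {q : ℕ}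

theorem eval_span {x : Fin (n + 1) → ℂ} (h : ∀ H ∈ F, eval x H = 0) :
    ∀ H ∈ Ideal.span F, eval x H = 0 := by
  intro H hH
  have h1 : Ideal.span F ≤ RingHom.ker (eval x) := Ideal.span_le.2 fun H hH => h H hH
  exact h1 hH

theorem pts_span {x : Fin (n + 1) → ℂ} (h : x ∈ Pts F Q) : x ∈ PtsP (Ideal.span F) Q :=
  ⟨h.1, eval_span h.2.1, h.2.2⟩

theorem gm_exp {P : Fin (n + 1) → Polynomial ℂ} (hP : GmMap F Q P) :
    IsGmCurve (fun G : {G : MvPolynomial (Fin (n + 1)) ℂ // G ∈ F} => G.1) Q P :=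
  ⟨fun t ht => Function.ne_iff.1 (hP.mem t ht).1,
    fun t ht => ⟨fun i => (hP.mem t ht).2.1 i.1 i.2, (hP.mem t ht).2.2⟩, hP.nonconst⟩

theorem exp_entire {P : Fin (n + 1) → Polynomial ℂ} (hP : GmMap F Q P) :
    ECurve F Q (fun z => fun j => (P j).eval (Complex.exp z)) :=
  ⟨fun _ => differentiableAt_pi.2 fun j =>
      ((Polynomial.differentiable (P j)).comp Complex.differentiable_exp).differentiableAt,
    fun _ => hP.mem _ (Complex.exp_ne_zero _)⟩

theorem exp_nonconst {P : Fin (n + 1) → Polynomial ℂ} (hP : GmMap F Q P) :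
    ∃ z w : ℂ, ∀ c : ℂ, (fun j => (P j).eval (Complex.exp z)) ≠
      c • fun j => (P j).eval (Complex.exp w) := by
  obtain ⟨s, t, hs, ht, j, k, hst⟩ := hP.nonconst
  refine ⟨Complex.log s, Complex.log t, fun c hc => hst ?_⟩
  have e1 := congrFun hc j
  have e2 := congrFun hc k
  simp only [Complex.exp_log hs, Complex.exp_log ht, Pi.smul_apply, smul_eq_mul] at e1 e2
  rw [e1, e2]
  ring

theorem homog_span (hF : ∀ H ∈ F, IsForm H) : IsHomog (Ideal.span F) := by
  let _ := MvPolynomial.gradedAlgebra (R := ℂ) (σ := Fin (n + 1))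
  have h1 : (Ideal.span F).IsHomogeneous (homogeneousSubmodule (Fin (n + 1)) ℂ) :=
    Ideal.homogeneous_span _ _ fun H hH => by
      obtain ⟨d, hd⟩ := hF H hH
      exact ⟨d, hd⟩
  exact fun H hH d => homogeneousComponent_mem_of_mem h1 hH d

theorem gm_special (hF : ∀ H ∈ F, IsForm H) (hQ : Q.IsHomogeneous q) (B : ℕ) :
    SpGm F Q B ⊆ SpAlg F Q q ∩ SpH F Q ∩ SpP F Q := by
  have hset : (ball (0 : ℂ) 1 \ {0}) = PB 1 := pb_eq 1
  intro x hx
  refine ⟨⟨⟨hx.1, fun G hG h => hx.2 G hG fun P hP _ t ht => ?_⟩,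
    ⟨hx.1, fun G hG h => hx.2 G hG fun P hP _ t ht => ?_⟩⟩,
    ⟨hx.1, fun G hG h => hx.2 G hG fun P hP _ t ht => ?_⟩⟩
  · have h1 := Helper4K9.MP.strong_brody (homog_span hF) hQ hG h
      (f := fun z => fun j => (P j).eval (Complex.exp z))
      ⟨(exp_entire hP).1, fun z => pts_span ((exp_entire hP).2 z), exp_nonconst hP⟩
      (merAdm_exp (gm_exp hP)) (Complex.log t)
    simp only [Complex.exp_log ht] at h1
    exact h1
  · have h1 := h _ (exp_entire hP) (exp_nonconst hP) (Complex.log t)
    simp only [Complex.exp_log ht] at h1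
    exact h1
  · obtain ⟨w, hw, hwt⟩ := exists_exp_inv ht one_pos
    have h1 := h (fun w => fun j => (P j).eval (Complex.exp w⁻¹)) ⟨fun w hw => by
        rw [hset] at hw
        refine (differentiableAt_pi.2 fun j => ?_).differentiableWithinAt
        have h2 : DifferentiableAt ℂ (fun w : ℂ => Complex.exp w⁻¹) w :=
          (analyticAt_inv hw.1).cexp.differentiableAt
        exact (Polynomial.differentiable (P j)).differentiableAt.comp w h2,
      fun w _ => hP.mem _ (Complex.exp_ne_zero _)⟩ (not_extends_exp _ Q P (gm_exp hP))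
      w (by rw [hset]; exact hw)
    simp only [hwt] at h1
    exact h1

theorem proper (hQ : Q.IsHomogeneous q) {K : Type} [Field K] [Algebra ℂ K] {w : ℕ}
    {y : Fin (n + 1) → K} (hy : Generic F Q K w y) (h : LogGeneralType ℂ K w (OffQ Q q y))
    (B : ℕ) : ∃ x ∈ Pts F Q, x ∉ SpGm F Q B := by
  obtain ⟨G, hG, hGy, hGm⟩ := not_covered hQ hy.ne hy.gen hy.dim h B
  have h1 : ∃ x ∈ Pts F Q, eval x G ≠ 0 := by
    by_contra hcon
    push Not at hcon
    exact hGy ((hy.rel G hG).2 hcon)
  obtain ⟨x, hx, hxG⟩ := h1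
  refine ⟨x, hx, fun h2 => hxG (h2.2 G hG fun P hP hPB t ht => hGm P ⟨fun t ht => ?_,
    hP.nonconst⟩ hPB t ht)⟩
  have h3 := hP.mem t ht
  exact ⟨h3.1, fun H hH => (hy.rel H hH.1).1 hH.2 _ h3, h3.2.2⟩

/-- Let `X` be the quasi-projective variety in `P^n` which is given by a set `F` of forms of degree
at most `D` and the boundary `Q = 0`, `q = deg Q`.

(1) There is a constant `A` which depends only on `n`, `q` and `D`, such that the second main theorem
`T(r) ≤ A N(r) + O(log r)`, where `T` is the characteristic and `N` is the counting function of the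
degenerate points with respect to any decomposition of the space, holds for all holomorphic maps from
the punctured disc to `X`, and for all entire curves in `X`, which are not contained in the Zariski
closure in `X` of the union of the images of the nonconstant morphisms of degree at most `A` from the
multiplicative group to `X`.

(2) This closed subset of `X` is contained in `Sp_alg(X)`, `Sp_h(X)` and `Sp_p(X)`.

(3) This closed subset of `X` is not `X` if `X` is irreducible and of log general type. -/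
theorem result (n q : ℕ) :
    (∀ D : ℕ, ∃ A : ℕ, ∀ (F : Set (MvPolynomial (Fin (n + 1)) ℂ))
      (Q : MvPolynomial (Fin (n + 1)) ℂ), (∀ H ∈ F, ∃ e ≤ D, H.IsHomogeneous e) →
        Q.IsHomogeneous q →
        (∀ f, DCurve F Q f → (∃ z ∈ ball (0 : ℂ) 1 \ {0}, f z ∉ SpGm F Q A) → SMT A f) ∧
        ∀ f, ECurve F Q f → (∃ z, f z ∉ SpGm F Q A) → SMTE A f) ∧
    ∀ (F : Set (MvPolynomial (Fin (n + 1)) ℂ)) (Q : MvPolynomial (Fin (n + 1)) ℂ),
      (∀ H ∈ F, IsForm H) → Q.IsHomogeneous q → ∀ B : ℕ,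
        SpGm F Q B ⊆ SpAlg F Q q ∩ SpH F Q ∩ SpP F Q ∧
        ∀ (K : Type) [Field K] [Algebra ℂ K] (w : ℕ) (y : Fin (n + 1) → K), Generic F Q K w y →
          LogGeneralType ℂ K w (OffQ Q q y) → ∃ x ∈ Pts F Q, x ∉ SpGm F Q B := by
  refine ⟨fun D => ?_, fun F Q hF hQ B => ⟨gm_special hF hQ B, fun K _ _ w y hy h =>
    proper hQ hy h B⟩⟩
  obtain ⟨A, hA⟩ := uniform_family n q D ((n + 1) ^ 2)
  exact ⟨A, fun F Q hF hQ => ⟨fun f hf hS => smt_all fun π => smt_disc (hA F Q) hF hQ hf hS π,
    fun f hf hS => smte_all fun π => smt_entire (hA F Q) hF hQ hf hS π⟩⟩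

end Pool.Agent.Results.MP_160ed4_ag.UniformSecondMain
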